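import Pool.Agent.Atn.Main

/-!
# Longest path transversals, distance layers and the asteroidal number

A set `A` of vertices is asteroidal if for every `a` in `A` any two elements of `A` other than `a` are
joined by a walk without vertices in the closed neighbourhood of `a`.

Proof of (1): let `i` be the least of the numbers `max lev Q`, `Q` a longest path. Longest paths meet
pairwise, so every longest path has an edge with one end on level `i`, both ends on the levels
`i - 1, i, i + 1`. As long as there is such an edge `a b` (not only on longest paths) with `a` dominated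
by one set of the family and `b` by another one, join them by `a` and `b`: one set less, at most two
vertices more. At the end both ends of every such edge are dominated by the same connected set; if it
avoids a longest path through the edge, the path can be made longer.

Proof of (2): a nonempty asteroidal set `D` of maximal potential is a dominating target: every connected
set containing `D` is dominating, so the union of the shortest paths from one element `r` of `D` to the
others is. A vertex on level `i - 1, i, i + 1` (distance from `r`) is dominated by one of the vertices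
with the numbers `i - 2, ..., i + 2` of one of these at most `k - 1` paths.
-/

set_option autoImplicit false

namespace Pool.Agent.Results.MP_4305f0_co.AsteroidalNumber

open SimpleGraph

variable {V : Type}

/-- `x` and `y` are joined by a walk without vertices in the closed neighbourhood of `z` -/
def Join (G : SimpleGraph V) (z x y : V) : Prop :=
  ∃ w : G.Walk x y, ∀ v ∈ w.support, v ≠ z ∧ ¬ G.Adj z v

/-- `A` is asteroidal: for every `a` in `A` any two elements of `A` other than `a` are joined by a walk
without vertices in the closed neighbourhood of `a` -/
def Asteroidal (G : SimpleGraph V) (A : Finset V) : Prop :=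
  ∀ a ∈ A, ∀ x ∈ A, ∀ y ∈ A, x ≠ a → y ≠ a → Join G a x y

/-- `A` is a connected set of vertices -/
def Conn (G : SimpleGraph V) (A : Finset V) : Prop :=
  ∀ x ∈ A, ∀ y ∈ A, ∃ w : G.Walk x y, ∀ v ∈ w.support, v ∈ A

/-- `p` is a longest path of `G` -/
def IsLongest (G : SimpleGraph V) {u v : V} (p : G.Walk u v) : Prop :=
  p.IsPath ∧ ∀ (a b : V) (q : G.Walk a b), q.IsPath → q.length ≤ p.length

/-- `S` meets every longest path of `G`. -/
def IsTransversal (G : SimpleGraph V) (S : Finset V) : Prop :=
  ∀ (u v : V) (p : G.Walk u v), IsLongest G p → ∃ x ∈ S, x ∈ p.support

/-- (1) Let `lev` change by at most 1 along the edges of the connected graph `G`, and for every `i` let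
all vertices `v` with `i - 1 ≤ lev v ≤ i + 1` be in or adjacent to a set of a family of at most `c`
connected sets with at most `k` vertices together. Then some `k + 2 (c - 1)` vertices meet all longest
paths. (2) If every asteroidal set of the connected graph `G` has at most `k` elements, `k ≥ 2`, then
some `7 k - 9` vertices meet all longest paths. -/
theorem result :
    (∀ (V : Type) [Fintype V] (G : SimpleGraph V), G.Connected → ∀ lev : V → ℕ,
      (∀ a b, G.Adj a b → lev b ≤ lev a + 1) → ∀ k c : ℕ, 1 ≤ k → 1 ≤ c →
      (∀ i, ∃ F : Finset (Finset V), F.card ≤ c ∧ (∑ A ∈ F, A.card) ≤ k ∧ (∀ A ∈ F, Conn G A) ∧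
        ∀ v, i ≤ lev v + 1 → lev v ≤ i + 1 → ∃ A ∈ F, v ∈ A ∨ ∃ x ∈ A, G.Adj v x) →
        ∃ S : Finset V, S.card ≤ k + 2 * (c - 1) ∧ IsTransversal G S) ∧
    (∀ (V : Type) [Fintype V] (G : SimpleGraph V), G.Connected → ∀ k : ℕ, 2 ≤ k →
      (∀ A : Finset V, Asteroidal G A → A.card ≤ k) →
        ∃ S : Finset V, S.card ≤ 7 * k - 9 ∧ IsTransversal G S) :=
  ⟨fun _ _ _ hG lev hlev k c hk hc h => Pool.Agent.Atn.transversal_of_window hG lev hlev k c hk hc h,
    fun _ _ _ hG _ hk2 hk => Pool.Agent.Atn.transversal_of_asteroidal hG hk2 hk⟩

end Pool.Agent.Results.MP_4305f0_co.AsteroidalNumber
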