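import Pool.Agent.Lptd.Reduce

/-!
# Longest path transversals and degrees

Every finite graph with an edge has a set of at most `3 ∑ 1 / d(v)` vertices that meets all longest paths,
where `v` runs over the ends of longest paths.  So graphs whose longest paths all end in vertices of
degree at least `ε n` have a longest path transversal of at most `3 / ε` vertices.

Proof: if the longest path `Q` is missed by `S`, the ends which are reached from `Q` by rotations with one
end fixed form a set `U` with fewer than `3 |U|` neighbours (Posa), all on `Q`, hence not in `S`.  The set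
`S` is built greedily: as long as there is a set `U` of ends without neighbours in `S` and with
`|N(U)| ≤ 3 |U|`, some vertex of `N(U)` sees a third of the weight `1 / d`.

A bound by one constant for all dense graphs is as strong as a bound for all connected graphs: hang a
large clique on every vertex.
-/

set_option autoImplicit false

namespace Pool.Agent.Results.MP_4305f0_co.DegreeSum

open Finset Classical

variable {V : Type*}

/-- The path `p` is a longest path of `G`. -/
def IsLongestPath (G : SimpleGraph V) {u v : V} (p : G.Walk u v) : Prop :=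
  p.IsPath ∧ ∀ (a b : V) (q : G.Walk a b), q.IsPath → q.length ≤ p.length

/-- The set `S` meets every longest path of `G`. -/
def IsTransversal (G : SimpleGraph V) (S : Finset V) : Prop :=
  ∀ (u v : V) (p : G.Walk u v), IsLongestPath G p → ∃ x ∈ S, x ∈ p.support

/-- `v` is an end of a longest path of `G`. -/
def IsEnd (G : SimpleGraph V) (v : V) : Prop :=
  ∃ (u : V) (p : G.Walk u v), IsLongestPath G p

/-- (1) A finite graph with an edge has a longest path transversal `S` with at most `3 ∑ 1 / d(v)`
vertices, the sum over the ends of longest paths; if all these ends have degree at least `ε n`, then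
`|S| ≤ 3 / ε`.  (2) If there is a `C` such that for every `ε > 0` all large connected graphs with all
degrees at least `ε n` have a longest path transversal with at most `C` vertices, then all connected
graphs have one. -/
theorem result :
    (∀ (V : Type) [Fintype V] (G : SimpleGraph V), (∃ x y, G.Adj x y) →
      ∃ S : Finset V, IsTransversal G S ∧
        (S.card : ℝ) ≤ 3 * ∑ v ∈ univ.filter (fun v => IsEnd G v), 1 / (G.degree v : ℝ) ∧
        ∀ ε : ℝ, 0 < ε → (∀ v, IsEnd G v → ε * Fintype.card V ≤ G.degree v) →
          (S.card : ℝ) ≤ 3 / ε) ∧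
    (∀ C : ℕ,
      (∀ ε : ℝ, 0 < ε → ∃ n₀ : ℕ, ∀ (V : Type) [Fintype V] (G : SimpleGraph V),
        n₀ ≤ Fintype.card V → G.Connected → (∀ v, ε * Fintype.card V ≤ G.degree v) →
          ∃ S : Finset V, IsTransversal G S ∧ S.card ≤ C) →
      ∀ (V : Type) [Fintype V] (G : SimpleGraph V), G.Connected →
        ∃ S : Finset V, IsTransversal G S ∧ S.card ≤ C) := by
  refine ⟨?_, ?_⟩
  · intro V _ G ⟨x, y, hxy⟩
    obtain ⟨S, h1, h2⟩ := Lptd.exists_transversal G hxy
    have h1' : (S.card : ℝ) ≤
        3 * ∑ v ∈ univ.filter (fun v => IsEnd G v), 1 / (G.degree v : ℝ) := h1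
    refine ⟨S, fun u v p hp => h2 u v p hp.1 hp.2, h1', fun ε hε h => ?_⟩
    have hn : (0 : ℝ) < Fintype.card V := by
      exact_mod_cast Fintype.card_pos_iff.2 ⟨x⟩
    have h3 : ∑ v ∈ univ.filter (fun v => IsEnd G v), 1 / (G.degree v : ℝ) ≤
        ∑ v ∈ univ.filter (fun v => IsEnd G v), 1 / (ε * Fintype.card V) := by
      refine Finset.sum_le_sum fun v hv => ?_
      have hv' : IsEnd G v := by simpa using hv
      exact one_div_le_one_div_of_le (by positivity) (h v hv')
    rw [Finset.sum_const, nsmul_eq_mul] at h3
    have h4 : ((univ.filter (fun v => IsEnd G v)).card : ℝ) ≤ Fintype.card V := by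
      exact_mod_cast Finset.card_le_univ _
    have h5 : ((univ.filter (fun v => IsEnd G v)).card : ℝ) * (1 / (ε * Fintype.card V)) ≤
        1 / ε := by
      calc _ ≤ (Fintype.card V : ℝ) * (1 / (ε * Fintype.card V)) :=
            mul_le_mul_of_nonneg_right h4 (by positivity)
        _ = 1 / ε := by field_simp
    calc (S.card : ℝ) ≤ 3 * ∑ v ∈ univ.filter (fun v => IsEnd G v), 1 / (G.degree v : ℝ) := h1'
      _ ≤ 3 * (1 / ε) := by linarith
      _ = 3 / ε := by ring
  · intro C h V _ H hH
    have := hH.nonempty
    have hc : (0 : ℝ) < Fintype.card V := by exact_mod_cast Fintype.card_pos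
    obtain ⟨n₀, hn⟩ := h (1 / (2 * Fintype.card V)) (by positivity)
    have hcard : Fintype.card (V × Fin (n₀ + 1 + 1)) = Fintype.card V * (n₀ + 2) := by
      rw [Fintype.card_prod, Fintype.card_fin]
    obtain ⟨S, hS, hSC⟩ := hn (V × Fin (n₀ + 1 + 1)) (Lptd.hang H (n₀ + 1)) (by
        rw [hcard]
        have : 1 ≤ Fintype.card V := Fintype.card_pos
        nlinarith) (Lptd.hang_connected hH _) (by
        intro v
        have h1 := Lptd.hang_degree H (n₀ + 1) v
        have h2 : ((n₀ + 1 : ℕ) : ℝ) ≤ ((Lptd.hang H (n₀ + 1)).degree v : ℝ) := by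
          exact_mod_cast h1
        refine le_trans ?_ h2
        rw [hcard]
        push_cast
        have : 1 / (2 * (Fintype.card V : ℝ)) * (Fintype.card V * (n₀ + 2)) = (n₀ + 2) / 2 := by
          field_simp
        rw [this]
        have : (0 : ℝ) ≤ n₀ := by positivity
        linarith)
    refine ⟨S.image Prod.fst, ?_, le_trans Finset.card_image_le hSC⟩
    intro u v p hp
    exact Lptd.hang_walk H (n₀ + 1) S hH
      (fun a b q hq hm => hS a b q ⟨hq, hm⟩) p hp.1 hp.2

end Pool.Agent.Results.MP_4305f0_co.DegreeSum
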