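import Pool.Agent.LptT.G1Good

/-!
# A connected graph without a longest path transversal of three vertices

There is a finite connected graph in which every set of at most three vertices is missed by a longest path:
its longest path transversal number is at least four.

The graph comes from a weighted cubic multigraph with 42 vertices and one vertex at infinity of degree six,
found by computer: all cycles through infinity have weight at most 600, and every three edges
are avoided by a cycle through infinity of weight 600.  The upper bound 600 is proved by a branch and
cut certificate (305 leaves) which the kernel checks, the covering of all triples by 158 explicit cycles.
Every vertex is then replaced by the Petersen graph minus a vertex, every edge by a chain, and the six edges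
at infinity by long pendant chains.
-/

set_option autoImplicit false

namespace Pool.Agent.Results.MP_4305f0_co.LptFour

/-- There is a finite connected graph in which no set of at most three vertices meets all longest
paths. -/
theorem result : ∃ (V : Type) (_ : Fintype V) (G : SimpleGraph V), G.Connected ∧
    ∀ S : Finset V, S.card ≤ 3 →
      ∃ (u v : V) (p : G.Walk u v), p.IsPath ∧
        (∀ (a b : V) (q : G.Walk a b), q.IsPath → q.length ≤ p.length) ∧
          ∀ x ∈ S, x ∉ p.support :=
  Pool.Agent.LptT.G1.lpt_four

end Pool.Agent.Results.MP_4305f0_co.LptFour
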