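import Pool.Agent.Mimw.Main
import Pool.Agent.Mimw.Detour

/-!
# Longest path transversals, maps to trees and mim-width

(1) Let `f` map the vertices of the connected graph `G` to the nodes of a tree `T`. Then there is a node
`x` such that `S` meets all longest paths of `G` whenever every edge `a b` of `G` with `x` on the path
from `f a` to `f b` has an end in `S` or a bypass through `S`. (2) If `G` has mim-width at most `k`, then
`8 k - 4` vertices meet all longest paths.

Proof of (1): otherwise every node `x` has a longest path `P x` whose image is on one side of `x`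
(otherwise the bypass makes the path longer); for two neighbouring nodes these sides are disjoint,
against the fact that longest paths meet pairwise. Proof of (2): longest paths meet pairwise, so there
is a node of the decomposition tree whose leaf set contains a longest path while those of its two
children contain none; every longest path crosses one of these two cuts. The ends of the edges of a cut
are dominated by `k` stars with `2 k` vertices together; two stars joined by an edge of the cut (with
its ends) are merged as long as possible, and give a set of `4 k - 2` vertices which covers the cut.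
-/

set_option autoImplicit false

namespace Pool.Agent.Results.MP_4305f0_co.MimWidth

open SimpleGraph

/-- `x` and `y` are joined by a path with at least one inner vertex, all inner vertices being in `S` -/
def Bypass {V : Type} (G : SimpleGraph V) (S : Finset V) (x y : V) : Prop :=
  ∃ w : G.Walk x y, w.IsPath ∧ 2 ≤ w.length ∧ ∀ z ∈ w.support, z = x ∨ z = y ∨ z ∈ S

/-- `x` is on the path from `y` to `z` in the tree `T`: every walk from `y` to `z` passes `x` -/
def OnPath {ι : Type} (T : SimpleGraph ι) (x y z : ι) : Prop := ∀ w : T.Walk y z, x ∈ w.support

/-- rooted binary trees with elements of `V` at their leaves -/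
inductive BTree (V : Type) : Type
  | leaf : V → BTree V
  | node : BTree V → BTree V → BTree V

/-- the set of the elements at the leaves -/
def BTree.leaves {V : Type} : BTree V → Set V
  | .leaf v => {v}
  | .node a b => a.leaves ∪ b.leaves

/-- the leaf sets of all subtrees have the property `P` -/
def BTree.All {V : Type} (P : Set V → Prop) : BTree V → Prop
  | .leaf v => P {v}
  | .node a b => P (a.leaves ∪ b.leaves) ∧ a.All P ∧ b.All P

/-- there are no `k + 1` edges `a i b i` with `a i ∈ U`, `b i ∈ Z` without other edges `a i b j` -/
def NoMatching {V : Type} (G : SimpleGraph V) (k : ℕ) (U Z : Set V) : Prop :=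
  ∀ a b : Fin (k + 1) → V, (∀ i, a i ∈ U) → (∀ i, b i ∈ Z) → ¬ ∀ i j, (G.Adj (a i) (b j) ↔ i = j)

/-- `G` has mim-width at most `k`: there is a rooted binary tree with all vertices at its leaves, such
that for the leaf set `A` of every subtree there are no `k + 1` edges `a i b i` with `a i ∈ A` and
`b i ∉ A` such that `a i` and `b j` are adjacent only for `i = j`. -/
def MimWidthLE {V : Type} (k : ℕ) (G : SimpleGraph V) : Prop :=
  ∃ t : BTree V, (∀ v, v ∈ t.leaves) ∧ t.All (fun A => NoMatching G k A Aᶜ)

/-- `p` is a longest path of `G` -/
def IsLongest {V : Type} (G : SimpleGraph V) {u v : V} (p : G.Walk u v) : Prop :=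
  p.IsPath ∧ ∀ (a b : V) (q : G.Walk a b), q.IsPath → q.length ≤ p.length

/-- `S` meets every longest path of `G`. -/
def IsTransversal {V : Type} (G : SimpleGraph V) (S : Finset V) : Prop :=
  ∀ (u v : V) (p : G.Walk u v), IsLongest G p → ∃ x ∈ S, x ∈ p.support

/-- the same tree in the library -/
private def BTree.toLib {V : Type} : BTree V → Pool.Mimw.BTree V
  | .leaf v => .leaf v
  | .node a b => .node a.toLib b.toLib

private theorem leaves_toLib {V : Type} (t : BTree V) : t.toLib.leaves = t.leaves := by
  induction t with
  | leaf v => rfl
  | node a b iha ihb =>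
    show a.toLib.leaves ∪ b.toLib.leaves = a.leaves ∪ b.leaves
    rw [iha, ihb]

private theorem all_toLib {V : Type} {P Q : Set V → Prop} (hPQ : ∀ A, P A → Q A) (t : BTree V)
    (ht : t.All P) : t.toLib.All Q := by
  induction t with
  | leaf v => exact hPQ _ ht
  | node a b iha ihb =>
    refine ⟨?_, iha ht.2.1, ihb ht.2.2⟩
    rw [leaves_toLib, leaves_toLib]
    exact hPQ _ ht.1

/-- (1) For every map `f` from the vertices of a connected graph with at least two vertices to the nodes
of a finite tree there is a node `x` such that every set `S` which covers the edges passing over `x`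
meets all longest paths. (2) A connected graph of mim-width at most `k ≥ 1` has a longest path
transversal with at most `8 k - 4` vertices. -/
theorem result :
    (∀ (V ι : Type) [Fintype V] [Finite ι] [Nontrivial V] (G : SimpleGraph V) (T : SimpleGraph ι),
      G.Connected → T.IsTree → ∀ f : V → ι, ∃ x : ι, ∀ S : Finset V,
        (∀ a b, G.Adj a b → OnPath T x (f a) (f b) → a ∈ S ∨ b ∈ S ∨ Bypass G S a b) →
          IsTransversal G S) ∧
    (∀ (V : Type) [Fintype V] (G : SimpleGraph V), G.Connected → ∀ k : ℕ, 0 < k →
      MimWidthLE k G → ∃ S : Finset V, S.card ≤ 8 * k - 4 ∧ IsTransversal G S) := by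
  refine ⟨fun V ι _ _ hV G T hG hT f => Pool.Mimw.exists_node hG hV hT f, ?_⟩
  rintro V _ G hG k hk ⟨t, ht, hc⟩
  obtain ⟨S, hS, hS'⟩ := Pool.Mimw.transversal_of_cuts G hG (4 * k - 2) (by omega) t.toLib
    (fun v => by rw [leaves_toLib]; exact ht v)
    (all_toLib (fun A h => by
      obtain ⟨S, h1, h2⟩ := Pool.Mimw.cutCover_of_mim hk h
      exact ⟨S, by omega, h2⟩) t hc)
  exact ⟨S, by omega, hS'⟩

end Pool.Agent.Results.MP_4305f0_co.MimWidth
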